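import Pool.Agent.H80.DM1

open Pool.Agent.H80.DM

theorem Pool.Agent.Results.MP_e0e142_ag.Isolated.result :
    ∃ (n : ℕ) (G H : SimpleGraph (Fin n)), ¬ IsPreconnected (Model1 G H) :=
  ⟨11, GG, HH, disc⟩
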